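import Pool.Agent.Q88.Piece.Rigid

/-!
# Piecewise conjugate classical systems with inequivalent C*-correspondences (MP_7f766c_an, Q1)

All definitions are in `Pool.Agent.Q88.Piece.Defs`. The result disproves the statement of Q1: there
are two piecewise conjugate classical multivariable dynamical systems on a compact metrizable space
whose C*-correspondences are not unitarily equivalent.

Idea of the proof.  The base is the simplex on the 24 permutations of four letters. Over it there
are four pairs of maps such that a unitary equivalence gives a continuous map `V` from the simplex
to the unitary group `U(4)` which is block diagonal, with blocks `A × B`, on every face spanned by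
permutations `π` with `π(A) = B`. Continuous logarithms of the determinants of `V`, of its `2 × 2`
blocks and of its entries give a function `G : S₄ → ℤ` with `G(π)` even exactly for even `π` and
`G(π) - G(πs) - G(πt) + G(πst) = 0` for disjoint transpositions `s, t`. Such a function does not
exist. Further maps into an interval make the space rigid, so that the isomorphism of the algebras
in the unitary equivalence has to be the identity.
-/

namespace Pool.Agent.Results.MP_7f766c_an.NotEquivalent

open Q88.Piece

/-- There are two piecewise conjugate classical multivariable systems (on one compact Hausdorff
second countable space) whose C*-correspondences are not unitarily equivalent. -/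
theorem result : ∃ (X : Type) (_ : TopologicalSpace X) (_ : CompactSpace X) (_ : T2Space X)
    (_ : SecondCountableTopology X) (n : ℕ) (σ τ : Fin n → CocompactMap X X),
    1 ≤ n ∧ PiecewiseConjugate σ τ ∧ ¬ UnitarilyEquivalent σ τ :=
  ⟨Z4, inferInstance, inferInstance, inferInstance, inferInstance, Fintype.card J4,
    fun a => sig (e4 a), fun a => tau (e4 a), Fintype.card_pos, piecewise.reindex e4,
    fun h => no_equiv (h.of_reindex e4)⟩

end Pool.Agent.Results.MP_7f766c_an.NotEquivalent
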